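import Pool.Agent.Work.MP_807b32_lc.TQ.B

/-!
Time-space tradeoff for nondeterministic Boolean branching programs, for a language in P.
-/

namespace Pool.Agent.Results.MP_807b32_lc.NondetTradeoff

open Pool.Agent.Work.MP_807b32_lc.TS

theorem result : ∃ L ∈ N68a2faeb.P, ∃ C : ℕ, ∀ n k : ℕ, 2 ≤ k → ∀ (S : Type) [Fintype S]
    (B : NBP (Fin n) S), B.ComputesIn (fun w => L (List.ofFn w) = true) (k * n) →
    n ≤ 2 ^ k ^ C * (Nat.clog 2 (Fintype.card S) + 1) :=
  Pool.Agent.Work.MP_807b32_lc.TQ.nd_tradeoff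

end Pool.Agent.Results.MP_807b32_lc.NondetTradeoff
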