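import Pool.Agent.Work.MP_807b32_lc.InP.Qu

/-!
Time-space tradeoff for quantum query programs that decide a language in P on `3 n` words of `b`
bits.
-/

namespace Pool.Agent.Results.MP_807b32_lc.QuantumTradeoff

open Pool.Agent.Work.MP_807b32_lc.Q

theorem result : ∃ L ∈ N68a2faeb.P, ∃ C : ℕ, ∀ (n b k D : ℕ), 2 ≤ D →
    ∀ (W E : Type) [Fintype W] [DecidableEq W] [Fintype E]
      (P : QP (Fin (3 * n)) (Fin b → Bool) W E) (T : ℕ),
      P.Valid → T ≤ k * n →
      P.Computes (fun x => L (List.ofFn fun i : Fin (3 * n * b) => x i.divNat i.modNat) = true)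
        T (1 / 2 + 1 / D) →
      n * b ≤ C ^ (Nat.sqrt k + 1) * (n + b + Nat.clog 2 (Fintype.card W) + Nat.clog 2 D) :=
  Pool.Agent.Work.MP_807b32_lc.InP.quantum_inP

end Pool.Agent.Results.MP_807b32_lc.QuantumTradeoff
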