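import Pool.Agent.Work.MP_807b32_lc.InP.Rd

/-!
Time-space tradeoff for randomized Boolean branching programs with two-sided error, for a
language in P.
-/

namespace Pool.Agent.Results.MP_807b32_lc.RandTradeoff

open Pool.Agent.Work.MP_807b32_lc.TS

theorem result : ∃ L ∈ N68a2faeb.P, ∃ C : ℕ, ∀ (n k D : ℕ), 2 ≤ k → 2 ≤ D →
    ∀ (S ι : Type) [Fintype S] [Fintype ι] (wt : ι → ℝ) (B : ι → DBP (Fin n) S) (T : ℕ),
      T ≤ k * n → RandComputes wt B (fun w => L (List.ofFn w) = true) T (1 / 2 + 1 / D) →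
      n ≤ k ^ (C * k) * D * (Nat.clog 2 (Fintype.card S) + 1) :=
  Pool.Agent.Work.MP_807b32_lc.InP.rand_inP

end Pool.Agent.Results.MP_807b32_lc.RandTradeoff
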