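import Pool.Agent.Work.MP_807b32_lc.TreeMain
import Pool.Agent.Work.MP_807b32_lc.LowMain
import Pool.Agent.Work.MP_807b32_lc.TreeSize

namespace Pool.Agent.Results.MP_807b32_lc.ThriftyTreeExponent

open Pool.Agent.Work.MP_807b32_lc.Tree

/-- Two-sided estimate of the least size of nondeterministic thrifty `k`-way branching programs for
tree evaluation with `H + 1` levels, in the decision and in the function version: it lies between
`c k^(4 - 2/2^n)` (if `5 n < H`) and `6 (2H+2)^(2D) (119 D)^(H+1) k^(4 + 2(H+1)/D)` (for every `D`).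
So the exponent of `k` is at most `4` for every height and tends to `4` as the height grows. -/
theorem result (n H : ℕ) (hH : 5 * n < H) : ∃ c : ℝ, 0 < c ∧
    ∀ (k D : ℕ) (o : Fin k), 0 < D →
      c * (k : ℝ) ^ (4 - (2 : ℝ) / 2 ^ n) ≤ sizeDecide H k o ∧
      sizeDecide H k o ≤ sizeCompute H k ∧
      (sizeCompute H k : ℝ) ≤ 6 * (2 * H + 2) ^ (2 * D) * (119 * D) ^ (H + 1) *
        (k : ℝ) ^ (4 + 2 * ((H : ℝ) + 1) / D) := by
  obtain ⟨c, hc, low⟩ := Pool.Agent.Work.MP_807b32_lc.Low.lower_bound n H hH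
  refine ⟨c, hc, fun k D o hD => ?_⟩
  have sub : ∀ (S : Type) (P : BP (Var k H) k S), Computes P → Thrifty P →
      Decides P o ∧ ThriftyTo P o := fun S P hC hT => by
    refine ⟨fun I => ⟨?_, ?_⟩, fun I qs => hT I o qs⟩
    · rintro ⟨qs, hq⟩
      exact ((hC I).2 o qs hq).symm
    · rintro rfl
      obtain ⟨o, qs, hq⟩ := (hC I).1
      exact ⟨qs, (hC I).2 o qs hq ▸ hq⟩
  obtain ⟨S, hS, P, hC, hT, h⟩ := exists_prog H k D o.pos hD
  refine ⟨?_, ?_, le_trans (Nat.cast_le.2 (Nat.sInf_le ⟨S, hS, P, hC, hT, rfl⟩)) h⟩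
  · obtain ⟨S', _, P', h1, h2, e⟩ := Nat.sInf_mem
      (s := {N | ∃ (S : Type) (_ : Fintype S) (P : BP (Var k H) k S),
        Decides P o ∧ ThriftyTo P o ∧ Fintype.card S = N})
      ⟨_, S, hS, P, (sub S P hC hT).1, (sub S P hC hT).2, rfl⟩
    rw [sizeDecide, ← e]
    exact low k S' P' o h1 h2
  · obtain ⟨S', hS', P', h1, h2, e⟩ := Nat.sInf_mem
      (s := {N | ∃ (S : Type) (_ : Fintype S) (P : BP (Var k H) k S),
        Computes P ∧ Thrifty P ∧ Fintype.card S = N}) ⟨_, S, hS, P, hC, hT, rfl⟩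
    exact Nat.sInf_le ⟨S', hS', P', (sub S' P' h1 h2).1, (sub S' P' h1 h2).2, e⟩

end Pool.Agent.Results.MP_807b32_lc.ThriftyTreeExponent
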